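import Mathlib

/-!
# First-Fit on chordal graphs

A blow-up of a binomial forest (each vertex replaced by a clique on `⌊k/2⌋` vertices), together with
a disjoint clique on `k` vertices, is a chordal graph with clique number `k` on which First-Fit can
be made to use at least `(1/5) k log n` colours.
-/

set_option autoImplicit false

namespace Pool.Agent.Results.MP_4aa424_co.FirstFitLower

/-- `G` is chordal: every cycle of length at least four (an injective cyclic sequence of vertices
`c : ZMod m → V` with `4 ≤ m` and consecutive vertices adjacent) has a chord, that is, an edge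
joining two vertices that are not consecutive on the cycle. -/
def IsChordal {V : Type*} (G : SimpleGraph V) : Prop :=
  ∀ (m : ℕ) (c : ZMod m → V), 4 ≤ m → Function.Injective c → (∀ i, G.Adj (c i) (c (i + 1))) →
    ∃ i j, j ≠ i ∧ j ≠ i + 1 ∧ i ≠ j + 1 ∧ G.Adj (c i) (c j)

/-- The colour (a positive integer) which First-Fit gives to the vertex `v i` when the vertices of
`G` are presented in the order `v 0, v 1, …, v (n - 1)`: the least positive integer not already used
on an earlier neighbour of `v i`. -/
noncomputable def ffColour {n : ℕ} (G : SimpleGraph (Fin n)) (v : Equiv.Perm (Fin n))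
    (i : Fin n) : ℕ :=
  sInf {m : ℕ | 1 ≤ m ∧ ∀ j : Fin n, (_ : j < i) → G.Adj (v j) (v i) → m ≠ ffColour G v j}
termination_by i

/-- The First-Fit chromatic number: the largest number of colours First-Fit uses on `G`, the maximum
taken over all orderings of the vertices. -/
noncomputable def chiFF {n : ℕ} (G : SimpleGraph (Fin n)) : ℕ :=
  Finset.univ.sup fun v : Equiv.Perm (Fin n) => (Finset.univ.image (ffColour G v)).card

/-! ### Walls -/

lemma ff_eq_level {n : ℕ} (G : SimpleGraph (Fin n)) (lev : Fin n → ℕ)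
    (h1 : ∀ u w, G.Adj u w → lev u ≠ lev w)
    (h2 : ∀ u, ∀ i < lev u, ∃ w, lev w = i ∧ G.Adj u w) (i : Fin n) :
    ffColour G (Tuple.sort lev) i = lev (Tuple.sort lev i) + 1 := by
  induction i using WellFoundedLT.induction with
  | ind i ih =>
    set v := Tuple.sort lev with hv
    have hmono : Monotone (lev ∘ v) := Tuple.monotone_sort lev
    rw [ffColour]
    apply le_antisymm
    · apply Nat.sInf_le
      refine ⟨by omega, ?_⟩
      intro j hj hadj
      rw [ih j hj]
      have := h1 _ _ hadj
      omega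
    · apply le_csInf
      · refine ⟨lev (v i) + 1, by omega, ?_⟩
        intro j hj hadj
        rw [ih j hj]
        have := h1 _ _ hadj
        omega
      · rintro m ⟨hm1, hm2⟩
        by_contra hlt
        push Not at hlt
        obtain ⟨w, hw1, hw2⟩ := h2 (v i) (m - 1) (by omega)
        obtain ⟨j, rfl⟩ := v.surjective w
        have hji : j < i := by
          by_contra hcon
          push Not at hcon
          have := hmono hcon
          simp only [Function.comp] at this
          omega
        have h3 := hm2 j hji hw2.symm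
        rw [ih j hji] at h3
        omega

lemma wall {n : ℕ} (G : SimpleGraph (Fin n)) (lev : Fin n → ℕ)
    (h1 : ∀ u w, G.Adj u w → lev u ≠ lev w)
    (h2 : ∀ u, ∀ i < lev u, ∃ w, lev w = i ∧ G.Adj u w) (u : Fin n) :
    lev u + 1 ≤ chiFF G := by
  have h3 : (Finset.univ.image (ffColour G (Tuple.sort lev))).card ≤ chiFF G :=
    Finset.le_sup (f := fun v : Equiv.Perm (Fin n) => (Finset.univ.image (ffColour G v)).card)
      (Finset.mem_univ (Tuple.sort lev))
  refine le_trans ?_ h3
  have h4 : (Finset.range (lev u + 1)).image (fun i => i + 1) ⊆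
      Finset.univ.image (ffColour G (Tuple.sort lev)) := by
    intro x hx
    obtain ⟨i, hi, rfl⟩ := Finset.mem_image.1 hx
    rw [Finset.mem_range] at hi
    have : ∃ w, lev w = i := by
      rcases Nat.lt_or_ge i (lev u) with h | h
      · obtain ⟨w, hw, _⟩ := h2 u i h
        exact ⟨w, hw⟩
      · exact ⟨u, by omega⟩
    obtain ⟨w, hw⟩ := this
    obtain ⟨j, rfl⟩ := (Tuple.sort lev).surjective w
    refine Finset.mem_image.2 ⟨j, Finset.mem_univ _, ?_⟩
    rw [ff_eq_level G lev h1 h2, hw]
  have h5 := Finset.card_le_card h4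
  rwa [Finset.card_image_of_injective _ (add_left_injective 1), Finset.card_range] at h5

/-! ### The binomial forest -/

/-- parent in the binomial forest on the positive integers -/
def par (x : ℕ) : ℕ := x + 2 ^ padicValNat 2 x

lemma lt_par (x : ℕ) : x < par x := by
  unfold par
  have : 0 < 2 ^ padicValNat 2 x := by positivity
  omega

lemma val_two {e m : ℕ} (hm : m % 2 = 1) : padicValNat 2 (2 ^ e * m) = e := by
  rw [padicValNat.mul (by positivity) (by omega), padicValNat.prime_pow,
    padicValNat.eq_zero_of_not_dvd (by omega), add_zero]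

lemma exists_form {x : ℕ} (hx : 0 < x) : ∃ m, m % 2 = 1 ∧ x = 2 ^ padicValNat 2 x * m := by
  obtain ⟨e, m, hm, rfl⟩ := Nat.exists_eq_two_pow_mul_odd hx.ne'
  have := Nat.odd_iff.1 hm
  exact ⟨m, this, by rw [val_two this]⟩

lemma val_par {x : ℕ} (hx : 0 < x) : padicValNat 2 x < padicValNat 2 (par x) := by
  obtain ⟨m, hm, hx2⟩ := exists_form hx
  have h1 : 2 ^ (padicValNat 2 x + 1) ∣ par x := by
    unfold par
    refine ⟨(m + 1) / 2, ?_⟩
    have h2 : m + 1 = 2 * ((m + 1) / 2) := by omega
    calc x + 2 ^ padicValNat 2 x = 2 ^ padicValNat 2 x * m + 2 ^ padicValNat 2 x := by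
          rw [← hx2]
      _ = 2 ^ padicValNat 2 x * (m + 1) := by ring
      _ = 2 ^ padicValNat 2 x * (2 * ((m + 1) / 2)) := by rw [← h2]
      _ = _ := by ring
  have h3 : par x ≠ 0 := by
    have := lt_par x
    omega
  exact (padicValNat_dvd_iff_le h3).1 h1

lemma child {x q : ℕ} (hx : 0 < x) (hq : q < padicValNat 2 x) :
    2 ^ q < x ∧ padicValNat 2 (x - 2 ^ q) = q ∧ par (x - 2 ^ q) = x := by
  obtain ⟨m, hm, hx2⟩ := exists_form hx
  set e := padicValNat 2 x with he
  obtain ⟨d, hd⟩ : ∃ d, e = q + (d + 1) := ⟨e - q - 1, by omega⟩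
  have h1 : x = 2 ^ q * (2 * (2 ^ d * m)) := by
    rw [hx2, hd]
    ring
  have h0 : 0 < 2 ^ q := by positivity
  have h2 : 0 < 2 ^ d * m := Nat.mul_pos (by positivity) (by omega)
  have h3 : x - 2 ^ q = 2 ^ q * (2 * (2 ^ d * m) - 1) := by
    rw [Nat.mul_sub, mul_one, ← h1]
  have h4 : padicValNat 2 (x - 2 ^ q) = q := by
    rw [h3]
    exact val_two (by omega)
  have h5 : 2 ^ q < x := by
    rw [h1]
    calc 2 ^ q = 2 ^ q * 1 := by ring
      _ < 2 ^ q * (2 * (2 ^ d * m)) := Nat.mul_lt_mul_of_pos_left (by omega) h0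
  refine ⟨h5, h4, ?_⟩
  unfold par
  rw [h4]
  omega

/-! ### The graph -/

/-- index of the clique of the blow-up which contains vertex `u` -/
def idx (k t u : ℕ) : ℕ := (u - k) / t + 1

/-- a clique on the vertices below `k`, and on the other vertices the blow-up of the forest -/
def gr (k t n : ℕ) : SimpleGraph (Fin n) where
  Adj u w := u ≠ w ∧ ((u.1 < k ∧ w.1 < k) ∨ (k ≤ u.1 ∧ k ≤ w.1 ∧
    (idx k t u = idx k t w ∨ par (idx k t u) = idx k t w ∨ par (idx k t w) = idx k t u)))
  symm := ⟨by
    rintro u w ⟨h1, h2⟩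
    refine ⟨h1.symm, ?_⟩
    rcases h2 with ⟨h2, h3⟩ | ⟨h2, h3, h4⟩
    · exact Or.inl ⟨h3, h2⟩
    · refine Or.inr ⟨h3, h2, ?_⟩
      rcases h4 with h4 | h4 | h4
      · exact Or.inl h4.symm
      · exact Or.inr (Or.inr h4)
      · exact Or.inr (Or.inl h4)⟩
  loopless := ⟨fun u h => h.1 rfl⟩

/-- the levels of the wall -/
def lev (k t u : ℕ) : ℕ := if u < k then u else padicValNat 2 (idx k t u) * t + (u - k) % t

lemma divmod {t a b r s : ℕ} (hr : r < t) (hs : s < t) (h : a * t + r = b * t + s) :
    a = b ∧ r = s := by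
  have h0 : 0 < t := by omega
  have h1 : (a * t + r) / t = a := by
    rw [add_comm, Nat.add_mul_div_right _ _ h0, Nat.div_eq_of_lt hr, zero_add]
  have h2 : (b * t + s) / t = b := by
    rw [add_comm, Nat.add_mul_div_right _ _ h0, Nat.div_eq_of_lt hs, zero_add]
  have h3 : a = b := by rw [← h1, ← h2, h]
  subst h3
  exact ⟨rfl, by omega⟩

lemma lev_ne {k t n : ℕ} (ht : 0 < t) (u w : Fin n) (h : (gr k t n).Adj u w) :
    lev k t u ≠ lev k t w := by
  obtain ⟨h1, h2⟩ := h
  have h1' : u.1 ≠ w.1 := fun h => h1 (Fin.ext h)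
  rcases h2 with ⟨h2, h3⟩ | ⟨h2, h3, h4⟩
  · unfold lev
    rw [if_pos h2, if_pos h3]
    exact h1'
  · unfold lev
    rw [if_neg (by omega), if_neg (by omega)]
    intro heq
    obtain ⟨h5, h6⟩ := divmod (Nat.mod_lt _ ht) (Nat.mod_lt _ ht) heq
    have hu : 0 < idx k t u := Nat.succ_pos _
    have hw : 0 < idx k t w := Nat.succ_pos _
    rcases h4 with h4 | h4 | h4
    · unfold idx at h4
      have h7 : (u.1 - k) / t = (w.1 - k) / t := by omega
      have h8 := Nat.div_add_mod (u.1 - k) t
      have h9 := Nat.div_add_mod (w.1 - k) t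
      rw [h7, h6] at h8
      omega
    · have := val_par hu
      rw [h4] at this
      omega
    · have := val_par hw
      rw [h4] at this
      omega

lemma idx_mk {k t a r : ℕ} (hr : r < t) : idx k t (k + (a * t + r)) = a + 1 := by
  unfold idx
  have h0 : 0 < t := by omega
  have h1 : k + (a * t + r) - k = r + a * t := by omega
  rw [h1, Nat.add_mul_div_right _ _ h0, Nat.div_eq_of_lt hr, zero_add]

lemma mod_mk {k t a r : ℕ} (hr : r < t) : (k + (a * t + r) - k) % t = r := by
  have h1 : k + (a * t + r) - k = r + a * t := by omega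
  rw [h1, Nat.add_mul_mod_self_right, Nat.mod_eq_of_lt hr]

lemma lev_mk {k t a r : ℕ} (hr : r < t) :
    lev k t (k + (a * t + r)) = padicValNat 2 (a + 1) * t + r := by
  unfold lev
  rw [if_neg (by omega), idx_mk hr, mod_mk hr]

lemma exists_lower {k t n : ℕ} (ht : 0 < t) (u : Fin n) (i : ℕ) (hi : i < lev k t u) :
    ∃ w : Fin n, lev k t w = i ∧ (gr k t n).Adj u w := by
  rcases Nat.lt_or_ge u.1 k with hu | hu
  · have h1 : lev k t u = u.1 := by
      unfold lev
      rw [if_pos hu]
    rw [h1] at hi
    refine ⟨⟨i, by omega⟩, ?_, ?_, Or.inl ⟨hu, by show i < k; omega⟩⟩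
    · unfold lev
      rw [if_pos (by show i < k; omega)]
    · intro h
      have := congrArg Fin.val h
      simp at this
      omega
  · -- write `u = k + (b * t + s)`
    obtain ⟨b, s, hs, hus⟩ : ∃ b s, s < t ∧ u.1 = k + (b * t + s) := by
      refine ⟨(u.1 - k) / t, (u.1 - k) % t, Nat.mod_lt _ ht, ?_⟩
      have := Nat.div_add_mod (u.1 - k) t
      rw [mul_comm] at this
      omega
    rw [hus, lev_mk hs] at hi
    have hiq := Nat.div_add_mod i t
    set q := i / t with hq
    set r := i % t with hr
    have hr' : r < t := Nat.mod_lt _ ht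
    rcases Nat.lt_or_ge q (padicValNat 2 (b + 1)) with hlt | hge
    · obtain ⟨c1, c2, c3⟩ := child (Nat.succ_pos b) hlt
      have e1 : b.succ = b + 1 := rfl
      rw [e1] at c1 c2 c3
      have e2 : (b - 2 ^ q) + 1 = b + 1 - 2 ^ q := by omega
      have h3 : (b - 2 ^ q) * t + t ≤ b * t := by
        have h0 : 0 < 2 ^ q := by positivity
        have : (b - 2 ^ q) + 1 ≤ b := by omega
        calc (b - 2 ^ q) * t + t = ((b - 2 ^ q) + 1) * t := by ring
          _ ≤ b * t := Nat.mul_le_mul_right _ this
      have hun := u.2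
      have hlt' : k + ((b - 2 ^ q) * t + r) < u.1 := by omega
      refine ⟨⟨k + ((b - 2 ^ q) * t + r), by omega⟩, ?_, ?_, Or.inr ⟨hu, ?_, ?_⟩⟩
      · show lev k t (k + ((b - 2 ^ q) * t + r)) = i
        rw [lev_mk hr', e2, c2, mul_comm]
        exact hiq
      · intro h
        have := congrArg Fin.val h
        simp only at this
        omega
      · show k ≤ k + ((b - 2 ^ q) * t + r)
        omega
      · right; right
        show par (idx k t (k + ((b - 2 ^ q) * t + r))) = idx k t u.1
        rw [idx_mk hr', e2, c3, hus, idx_mk hs]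
    · have hqe : q = padicValNat 2 (b + 1) := by
        by_contra hne
        have h4 : padicValNat 2 (b + 1) + 1 ≤ q := by omega
        have h5 : (padicValNat 2 (b + 1) + 1) * t ≤ q * t := Nat.mul_le_mul_right _ h4
        have h6 : (padicValNat 2 (b + 1) + 1) * t = padicValNat 2 (b + 1) * t + t := by ring
        have h7 : q * t = t * q := by ring
        omega
      have hrs : r < s := by
        have h7 : padicValNat 2 (b + 1) * t = t * q := by rw [hqe]; ring
        omega
      have hun := u.2
      refine ⟨⟨k + (b * t + r), by omega⟩, ?_, ?_, Or.inr ⟨hu, ?_, Or.inl ?_⟩⟩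
      · show lev k t (k + (b * t + r)) = i
        rw [lev_mk hr', ← hqe, mul_comm]
        exact hiq
      · intro h
        have := congrArg Fin.val h
        simp only at this
        omega
      · show k ≤ k + (b * t + r)
        omega
      · show idx k t u.1 = idx k t (k + (b * t + r))
        rw [hus, idx_mk hs, idx_mk hr']

/-! ### Clique number -/

lemma clique_le {k t n : ℕ} (ht : 0 < t) (hk : 2 * t ≤ k) (s : Finset (Fin n))
    (hs : (gr k t n).IsClique s) : s.card ≤ k := by
  rcases s.eq_empty_or_nonempty with rfl | hne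
  · simp
  obtain ⟨u, hu, hmin⟩ := s.exists_min_image (fun u => idx k t u.1) hne
  rcases Nat.lt_or_ge u.1 k with huk | huk
  · -- all vertices are below `k`
    have hsub : s.image Fin.val ⊆ Finset.range k := by
      intro x hx
      obtain ⟨w, hw, rfl⟩ := Finset.mem_image.1 hx
      rw [Finset.mem_range]
      by_cases hwu : w = u
      · rw [hwu]; exact huk
      · rcases (hs hw hu hwu).2 with h | h
        · exact h.1
        · omega
    have := Finset.card_le_card hsub
    rwa [Finset.card_image_of_injective _ Fin.val_injective, Finset.card_range] at this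
  · classical
    let f : Fin n → Bool × Fin t := fun w =>
      (decide (idx k t w.1 = idx k t u.1), ⟨(w.1 - k) % t, Nat.mod_lt _ ht⟩)
    have hkey : ∀ w ∈ s, k ≤ w.1 ∧ (idx k t w.1 = idx k t u.1 ∨ idx k t w.1 = par (idx k t u.1)) := by
      intro w hw
      by_cases hwu : w = u
      · rw [hwu]; exact ⟨huk, Or.inl rfl⟩
      · rcases (hs hw hu hwu).2 with h | ⟨h1, h2, h3⟩
        · omega
        · refine ⟨h1, ?_⟩
          rcases h3 with h3 | h3 | h3
          · exact Or.inl h3
          · exfalso
            have h4 := hmin w hw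
            have h5 := lt_par (idx k t w.1)
            omega
          · exact Or.inr h3.symm
    have hinj : Set.InjOn f s := by
      intro w hw w' hw' he
      obtain ⟨a1, a2⟩ := hkey w hw
      obtain ⟨b1, b2⟩ := hkey w' hw'
      have e1 : decide (idx k t w.1 = idx k t u.1) = decide (idx k t w'.1 = idx k t u.1) :=
        congrArg Prod.fst he
      have e2 : (w.1 - k) % t = (w'.1 - k) % t := congrArg Fin.val (congrArg Prod.snd he)
      have e1' : (idx k t w.1 = idx k t u.1) ↔ (idx k t w'.1 = idx k t u.1) := by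
        simpa using e1
      have e3 : idx k t w.1 = idx k t w'.1 := by
        by_cases hc : idx k t w.1 = idx k t u.1
        · rw [hc, e1'.1 hc]
        · have hc' : ¬ idx k t w'.1 = idx k t u.1 := fun h => hc (e1'.2 h)
          rcases a2 with a2 | a2
          · exact absurd a2 hc
          · rcases b2 with b2 | b2
            · exact absurd b2 hc'
            · rw [a2, b2]
      unfold idx at e3
      have h7 : (w.1 - k) / t = (w'.1 - k) / t := by omega
      have h8 := Nat.div_add_mod (w.1 - k) t
      have h9 := Nat.div_add_mod (w'.1 - k) t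
      rw [h7, e2] at h8
      apply Fin.ext
      omega
    have h1 := Finset.card_le_card_of_injOn (s := s) (t := Finset.univ) f
      (fun _ _ => Finset.mem_univ _) hinj
    have h2 : (Finset.univ : Finset (Bool × Fin t)).card = 2 * t := by
      rw [Finset.card_univ, Fintype.card_prod, Fintype.card_bool, Fintype.card_fin]
    omega

lemma clique_num {k t n : ℕ} (ht : 0 < t) (hk : 2 * t ≤ k) (hn : k ≤ n) :
    (gr k t n).cliqueNum = k := by
  apply le_antisymm
  · obtain ⟨s, hs⟩ := (gr k t n).exists_isNClique_cliqueNum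
    have := clique_le ht hk s hs.isClique
    rw [hs.card_eq] at this
    exact this
  · have hinj : Function.Injective (Fin.castLE hn) := Fin.castLE_injective hn
    have hcl : (gr k t n).IsClique ((Finset.univ.image (Fin.castLE hn) : Finset (Fin n)) : Set (Fin n)) := by
      intro u hu w hw hne
      simp only [Finset.coe_image, Finset.coe_univ, Set.image_univ, Set.mem_range] at hu hw
      obtain ⟨x, rfl⟩ := hu
      obtain ⟨y, rfl⟩ := hw
      exact ⟨hne, Or.inl ⟨x.2, y.2⟩⟩
    have h1 := hcl.card_le_cliqueNum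
    rwa [Finset.card_image_of_injective _ hinj, Finset.card_univ, Fintype.card_fin] at h1

/-! ### Chordality -/

lemma chordal {k t n : ℕ} : IsChordal (gr k t n) := by
  intro m c hm hinj hadj
  have : NeZero m := ⟨by omega⟩
  obtain ⟨i, _, hmin⟩ := (Finset.univ : Finset (ZMod m)).exists_min_image
    (fun i => idx k t (c i).1) ⟨0, Finset.mem_univ _⟩
  have hcast : ∀ a : ℕ, 0 < a → a < m → (a : ZMod m) ≠ 0 := by
    intro a ha1 ha2 h
    rw [ZMod.natCast_eq_zero_iff] at h
    have := Nat.le_of_dvd ha1 h
    omega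
  have h1 : (1 : ZMod m) ≠ 0 := by
    have := hcast 1 (by omega) (by omega)
    simpa using this
  have h2 : (2 : ZMod m) ≠ 0 := by
    have := hcast 2 (by omega) (by omega)
    simpa using this
  have h3 : (3 : ZMod m) ≠ 0 := by
    have := hcast 3 (by omega) (by omega)
    simpa using this
  have hne : i - 1 ≠ i + 1 := by
    intro h
    apply h2
    linear_combination -h
  refine ⟨i - 1, i + 1, hne.symm, ?_, ?_, ?_⟩
  · intro h
    apply h1
    linear_combination h
  · intro h
    apply h3
    linear_combination -h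
  · have a1 := hadj (i - 1)
    rw [sub_add_cancel] at a1
    have a2 := hadj i
    have hcne : c (i - 1) ≠ c (i + 1) := fun h => hne (hinj h)
    refine ⟨hcne, ?_⟩
    obtain ⟨-, b1⟩ := a1
    obtain ⟨-, b2⟩ := a2
    have m1 := hmin (i - 1) (Finset.mem_univ _)
    have m2 := hmin (i + 1) (Finset.mem_univ _)
    have p1 := lt_par (idx k t (c (i - 1)).1)
    have p2 := lt_par (idx k t (c (i + 1)).1)
    rcases b1 with ⟨b1, b1'⟩ | ⟨b1, b1', b1''⟩
    · rcases b2 with ⟨b2, b2'⟩ | ⟨b2, b2', b2''⟩
      · exact Or.inl ⟨b1, b2'⟩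
      · omega
    · rcases b2 with ⟨b2, b2'⟩ | ⟨b2, b2', b2''⟩
      · omega
      · refine Or.inr ⟨b1, b2', ?_⟩
        rcases b1'' with b1'' | b1'' | b1''
        · rcases b2'' with b2'' | b2'' | b2''
          · exact Or.inl (b1''.trans b2'')
          · exact Or.inr (Or.inl (by rw [b1'']; exact b2''))
          · exfalso
            omega
        · exfalso
          omega
        · rcases b2'' with b2'' | b2'' | b2''
          · exact Or.inr (Or.inr (by rw [← b2'']; exact b1''))
          · exact Or.inl (b1''.symm.trans b2'')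
          · exfalso
            omega

/-! ### The bound -/

lemma ff_bound {k t n : ℕ} (ht : 0 < t) (hn : t ≤ n - k) :
    t * (Nat.log 2 ((n - k) / t) + 1) ≤ chiFF (gr k t n) := by
  set N := (n - k) / t with hN
  have hN1 : 1 ≤ N := (Nat.one_le_div_iff ht).2 hn
  set L := Nat.log 2 N with hL
  have h1 : 2 ^ L ≤ N := Nat.pow_log_le_self 2 (by omega)
  have h2 : N * t ≤ n - k := Nat.div_mul_le_self _ _
  have h3 : 2 ^ L * t ≤ N * t := Nat.mul_le_mul_right _ h1
  have h0 : 0 < 2 ^ L := by positivity
  have h4 : (2 ^ L - 1) * t + t = 2 ^ L * t := by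
    calc (2 ^ L - 1) * t + t = ((2 ^ L - 1) + 1) * t := by ring
      _ = 2 ^ L * t := by rw [Nat.sub_add_cancel h0]
  have hlt : k + ((2 ^ L - 1) * t + (t - 1)) < n := by omega
  have h5 := wall (gr k t n) (fun u => lev k t u.1) (fun u w h => lev_ne ht u w h)
    (fun u i hi => exists_lower ht u i hi) ⟨k + ((2 ^ L - 1) * t + (t - 1)), hlt⟩
  have h6 : lev k t (k + ((2 ^ L - 1) * t + (t - 1))) = L * t + (t - 1) := by
    rw [lev_mk (by omega), Nat.sub_add_cancel h0]
    have : padicValNat 2 (2 ^ L * 1) = L := val_two (by norm_num)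
    rw [mul_one] at this
    rw [this]
  simp only [h6] at h5
  have h7 : t * (L + 1) = L * t + t := by ring
  omega

lemma numeric {k n : ℕ} (hk : 2 ≤ k) (hn : k ^ 2 ≤ n) :
    (1 / 5 : ℝ) * k * Real.log n ≤ ((k / 2 * (Nat.log 2 ((n - k) / (k / 2)) + 1) : ℕ) : ℝ) := by
  set t := k / 2 with ht
  have ht1 : 1 ≤ t := by omega
  have hk3 : k ≤ 3 * t := by omega
  have hk2 : 2 * t ≤ k := by omega
  have hn2 : 2 * k ≤ n := by nlinarith
  set N := (n - k) / t with hN
  set L := Nat.log 2 N with hL
  have h1 : N < 2 ^ (L + 1) := Nat.lt_pow_succ_log_self (by norm_num) N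
  -- `n - k < t * 2 ^ (L + 1)`
  have h2 : n - k < 2 ^ (L + 1) * t := by
    have := Nat.div_add_mod (n - k) t
    have h3 := Nat.mod_lt (n - k) (show 0 < t by omega)
    have h4 : (N + 1) * t ≤ 2 ^ (L + 1) * t := Nat.mul_le_mul_right _ h1
    have h5 : (N + 1) * t = t * N + t := by ring
    rw [← hN] at this
    omega
  -- `n ≤ (2 ^ (L + 1)) ^ 2`
  have h3 : n < 2 ^ (L + 1) * k := by
    have h4 : 2 ^ (L + 1) * (2 * t) ≤ 2 ^ (L + 1) * k := Nat.mul_le_mul_left _ hk2
    have h5 : 2 ^ (L + 1) * (2 * t) = 2 * (2 ^ (L + 1) * t) := by ring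
    omega
  have hkL : k ≤ 2 ^ (L + 1) := by
    by_contra hcon
    push Not at hcon
    nlinarith
  have h4 : n ≤ (2 ^ (L + 1)) ^ 2 := by
    have : 2 ^ (L + 1) * k ≤ 2 ^ (L + 1) * 2 ^ (L + 1) := Nat.mul_le_mul_left _ hkL
    rw [sq]
    omega
  have hn0 : (0 : ℝ) < n := by
    have : 0 < n := by omega
    exact_mod_cast this
  have h5 : Real.log n ≤ 2 * ((L + 1 : ℝ) * Real.log 2) := by
    have h6 : Real.log n ≤ Real.log (((2 : ℝ) ^ (L + 1)) ^ 2) := by
      apply Real.log_le_log hn0
      exact_mod_cast h4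
    rw [Real.log_pow, Real.log_pow] at h6
    push_cast at h6
    exact h6
  have h6 : Real.log 2 < 0.6931471808 := Real.log_two_lt_d9
  have h7 : (0 : ℝ) ≤ (L : ℝ) + 1 := by positivity
  have h8 : (k : ℝ) ≤ 3 * t := by exact_mod_cast hk3
  have h9 : (0 : ℝ) ≤ k := by positivity
  have h10 : Real.log n ≤ (5 / 3 : ℝ) * (L + 1) := by nlinarith
  have h11 : (0 : ℝ) ≤ Real.log n := Real.log_nonneg (by
    have : 1 ≤ n := by omega
    exact_mod_cast this)
  push_cast
  calc (1 / 5 : ℝ) * k * Real.log n ≤ 1 / 5 * k * ((5 / 3 : ℝ) * (L + 1)) := by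
        apply mul_le_mul_of_nonneg_left h10
        positivity
    _ = (1 / 3 : ℝ) * k * (L + 1) := by ring
    _ ≤ (t : ℝ) * (L + 1) := by
        apply mul_le_mul_of_nonneg_right _ h7
        linarith

/-- For all integers `k ≥ 2` and `n ≥ k²` there is a chordal graph on exactly `n` vertices with
clique number exactly `k` whose First-Fit chromatic number is at least `(1/5) k log n`. -/
theorem result : ∀ k n : ℕ, 2 ≤ k → k ^ 2 ≤ n → ∃ G : SimpleGraph (Fin n),
    IsChordal G ∧ G.cliqueNum = k ∧ (1 / 5 : ℝ) * k * Real.log n ≤ (chiFF G : ℝ) := by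
  intro k n hk hn
  have ht : 0 < k / 2 := by omega
  have hk2 : 2 * (k / 2) ≤ k := by omega
  have hn2 : 2 * k ≤ n := by nlinarith
  refine ⟨gr k (k / 2) n, chordal, clique_num ht hk2 (by omega), ?_⟩
  refine (numeric hk hn).trans ?_
  exact_mod_cast ff_bound ht (by omega)

end Pool.Agent.Results.MP_4aa424_co.FirstFitLower
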